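import Pool.Agent.P8H71.SK.Stm

/-!
# Package SK/PER (for helper71)
-/

set_option autoImplicit false

open Finset Matrix

namespace Pool.Agent.P8H88.SK

open Pool.Agent.P8H71.SK

theorem per_comp {d : ℕ} (A : Matrix (Fin d) (Fin d) ℝ) (τ : Equiv.Perm (Fin d)) :
    ∑ σ : Equiv.Perm (Fin d), ∏ i, A (σ i) (τ i) = A.permanent := by
  unfold Matrix.permanent
  rw [← Equiv.sum_comp (Equiv.mulRight τ) (fun σ : Equiv.Perm (Fin d) => ∏ i, A (σ i) (τ i))]
  refine Finset.sum_congr rfl fun σ _ => ?_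
  rw [← Equiv.prod_comp τ (fun j => A (σ j) j)]
  rfl

theorem per_mul {d : ℕ} (A B : Matrix (Fin d) (Fin d) ℝ) (hA : ∀ i j, 0 ≤ A i j)
    (hB : ∀ i j, 0 ≤ B i j) : A.permanent * B.permanent ≤ (A * B).permanent := by
  have h1 : A.permanent * B.permanent =
      ∑ σ : Equiv.Perm (Fin d), ∑ τ : Equiv.Perm (Fin d), ∏ i, (A (σ i) (τ i) * B (τ i) i) := by
    rw [Finset.sum_comm]
    have h2 : ∀ τ : Equiv.Perm (Fin d), ∑ σ : Equiv.Perm (Fin d), ∏ i, (A (σ i) (τ i) * B (τ i) i) =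
        A.permanent * ∏ i, B (τ i) i := by
      intro τ
      rw [← per_comp A τ, Finset.sum_mul]
      refine Finset.sum_congr rfl fun σ _ => ?_
      rw [Finset.prod_mul_distrib]
    rw [Finset.sum_congr rfl fun τ _ => h2 τ, ← Finset.mul_sum]
    rfl
  rw [h1]
  change _ ≤ ∑ σ : Equiv.Perm (Fin d), ∏ i, (A * B) (σ i) i
  refine Finset.sum_le_sum fun σ _ => ?_
  have h3 : ∏ i, (A * B) (σ i) i = ∑ f : Fin d → Fin d, ∏ i, (A (σ i) (f i) * B (f i) i) := by
    simp only [Matrix.mul_apply]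
    rw [Finset.prod_univ_sum, Fintype.piFinset_univ]
  rw [h3]
  have hinj : Function.Injective (fun τ : Equiv.Perm (Fin d) => (⇑τ : Fin d → Fin d)) :=
    DFunLike.coe_injective
  have h4 : ∑ τ : Equiv.Perm (Fin d), ∏ i, (A (σ i) (τ i) * B (τ i) i) =
      ∑ f ∈ Finset.univ.map ⟨fun τ : Equiv.Perm (Fin d) => (⇑τ : Fin d → Fin d), hinj⟩,
        ∏ i, (A (σ i) (f i) * B (f i) i) := by
    rw [Finset.sum_map]
    rfl
  rw [h4]
  exact Finset.sum_le_sum_of_subset_of_nonneg (Finset.subset_univ _)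
    fun f _ _ => Finset.prod_nonneg fun i _ => mul_nonneg (hA _ _) (hB _ _)

theorem per_gt {d : ℕ} (hd : 2 ≤ d) (A : Matrix (Fin d) (Fin d) ℝ) (hA : ∀ i j, 0 < A i j)
    (hdet : A.det = 1) : 1 < A.permanent := by
  rw [← hdet, Matrix.det_apply']
  change _ < ∑ σ : Equiv.Perm (Fin d), ∏ i, A (σ i) i
  have hpos : ∀ σ : Equiv.Perm (Fin d), 0 < ∏ i, A (σ i) i := fun σ =>
    Finset.prod_pos fun i _ => hA _ _
  refine Finset.sum_lt_sum (fun σ _ => ?_)
    ⟨Equiv.swap ⟨0, by omega⟩ ⟨1, by omega⟩, Finset.mem_univ _, ?_⟩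
  · rcases Int.units_eq_one_or (Equiv.Perm.sign σ) with h | h
    · rw [h]
      simp
    · rw [h]
      have := hpos σ
      push_cast
      linarith
  · rw [Equiv.Perm.sign_swap (by simp [Fin.ext_iff])]
    have := hpos (Equiv.swap ⟨0, by omega⟩ ⟨1, by omega⟩)
    push_cast
    linarith

theorem per : S_PER := ⟨fun _ A B hA hB => per_mul A B hA hB, fun _ hd A hA h => per_gt hd A hA h⟩

end Pool.Agent.P8H88.SK
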